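import Pool.Agent.helper55.NK.Spec

/-! Row `nk:RA2` (MP_7e34bc_co). -/

set_option autoImplicit false

namespace Pool.Agent.helper95.NK

open Pool.Agent.NK Finset

theorem RA2_down (a i : ℕ) (hi : 2 ≤ i) (ha : i ≤ a) :
    (a.choose i : ℝ) * i * (i - 1) = (a.choose (i - 2) : ℝ) * ((a : ℝ) - i + 1) * ((a : ℝ) - i + 2) := by
  obtain ⟨i, rfl⟩ : ∃ k, i = k + 2 := ⟨i - 2, by omega⟩
  obtain ⟨d, rfl⟩ : ∃ d, a = i + 2 + d := ⟨a - (i + 2), by omega⟩
  have h1 := Nat.choose_succ_right_eq (i + 2 + d) i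
  have h2 := Nat.choose_succ_right_eq (i + 2 + d) (i + 1)
  have e1 : i + 2 + d - i = d + 2 := by omega
  have e2 : i + 2 + d - (i + 1) = d + 1 := by omega
  have e3 : i + 2 - 2 = i := by omega
  rw [e1] at h1
  rw [e2] at h2
  rw [e3]
  have h1' : ((i + 2 + d).choose (i + 1) : ℝ) * (i + 1) = ((i + 2 + d).choose i : ℝ) * (d + 2) := by
    exact_mod_cast h1
  have h2' : ((i + 2 + d).choose (i + 2) : ℝ) * (i + 2) = ((i + 2 + d).choose (i + 1) : ℝ) * (d + 1) := by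
    exact_mod_cast h2
  push_cast
  have : ((i + 2 + d).choose (i + 2) : ℝ) * ((i : ℝ) + 2) * ((i : ℝ) + 2 - 1) =
      ((i + 2 + d).choose (i + 2) : ℝ) * (i + 2) * (i + 1) := by ring
  rw [this, h2']
  linear_combination (d + 1 : ℝ) * h1'

theorem RA2_up (b j : ℕ) (hb : j + 1 ≤ b) :
    (b.choose (j + 2) : ℝ) * (j + 1) * (j + 2) = (b.choose j : ℝ) * ((b : ℝ) - j) * ((b : ℝ) - j - 1) := by
  obtain ⟨d, rfl⟩ : ∃ d, b = j + 1 + d := ⟨b - (j + 1), by omega⟩
  have h1 := Nat.choose_succ_right_eq (j + 1 + d) j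
  have h2 := Nat.choose_succ_right_eq (j + 1 + d) (j + 1)
  have e1 : j + 1 + d - j = d + 1 := by omega
  have e2 : j + 1 + d - (j + 1) = d := by omega
  rw [e1] at h1
  rw [e2] at h2
  have h1' : ((j + 1 + d).choose (j + 1) : ℝ) * (j + 1) = ((j + 1 + d).choose j : ℝ) * (d + 1) := by
    exact_mod_cast h1
  have h2' : ((j + 1 + d).choose (j + 2) : ℝ) * (j + 2) = ((j + 1 + d).choose (j + 1) : ℝ) * d := by
    exact_mod_cast h2
  push_cast
  linear_combination (j + 1 : ℝ) * h2' + (d : ℝ) * h1'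

theorem RA2 : RA2_stmt := by
  intro a b i j w hi hj ha hb hw h1 h2
  have hi' : (2 : ℝ) ≤ i := by exact_mod_cast hi
  have hj' : (1 : ℝ) ≤ j := by exact_mod_cast hj
  have ha' : (i : ℝ) ≤ a := by exact_mod_cast ha
  have hjw : (9 : ℝ) ≤ j * w := by nlinarith
  have hiw : (18 : ℝ) ≤ i * w := by nlinarith
  have hb1 : j + 1 ≤ b := by
    by_contra hc
    have : b = j := by omega
    rw [this] at h2
    linarith
  have hA := RA2_down a i hi ha
  have hz := RA2_up b j hb1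
  have hx0 : (0 : ℝ) ≤ (a.choose (i - 2) : ℝ) := Nat.cast_nonneg _
  have hB0 : (0 : ℝ) ≤ (b.choose j : ℝ) := Nat.cast_nonneg _
  have hpos : 0 < ((i : ℝ) * w + 1) * (i * w + 2) * (j + 1) * (j + 2) := by positivity
  have k1 : ((a : ℝ) - i + 1) * ((a : ℝ) - i + 2) ≤ ((i : ℝ) * w + 1) * (i * w + 2) :=
    mul_le_mul (by linarith) (by linarith) (by linarith) (by linarith)
  have k2 : ((j : ℝ) * w - 1) * (j * w - 2) ≤ ((b : ℝ) - j) * ((b : ℝ) - j - 1) :=
    mul_le_mul (by linarith) (by linarith) (by linarith) (by linarith)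
  unfold r2
  rw [div_mul_eq_mul_div, div_le_iff₀ hpos]
  have eL : (i : ℝ) * (i - 1) * (j * w - 1) * (j * w - 2) * ((a.choose i : ℝ) * (b.choose j : ℝ)) =
      (a.choose (i - 2) : ℝ) * (b.choose j : ℝ) *
        ((((a : ℝ) - i + 1) * ((a : ℝ) - i + 2)) * (((j : ℝ) * w - 1) * (j * w - 2))) := by
    linear_combination ((j : ℝ) * w - 1) * (j * w - 2) * (b.choose j : ℝ) * hA
  have eR : (a.choose (i - 2) : ℝ) * (b.choose (j + 2) : ℝ) *
      (((i : ℝ) * w + 1) * (i * w + 2) * (j + 1) * (j + 2)) =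
      (a.choose (i - 2) : ℝ) * (b.choose j : ℝ) *
        ((((i : ℝ) * w + 1) * (i * w + 2)) * (((b : ℝ) - j) * ((b : ℝ) - j - 1))) := by
    linear_combination (a.choose (i - 2) : ℝ) * (((i : ℝ) * w + 1) * (i * w + 2)) * hz
  rw [eL, eR]
  refine mul_le_mul_of_nonneg_left ?_ (mul_nonneg hx0 hB0)
  refine mul_le_mul k1 k2 ?_ ?_
  · exact mul_nonneg (by linarith) (by linarith)
  · exact mul_nonneg (by linarith) (by linarith)

end Pool.Agent.helper95.NK
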